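import Pool.Agent.H413R3.OddT.Alg
import Pool.Agent.TH693.PP.Base

set_option autoImplicit false

/-!
# Coefficients of odd powers of the discriminant modulo 2: odd and vanishing coefficients
-/

namespace Pool.Agent.Q36.PC

open PowerSeries Pool.Agent.H397R2.PP
open Pool.Agent.H307R2.OP Pool.Agent.H307R2.OP.OC
open Pool.Agent.H413R3.Part Pool.Agent.H413R3.OddT

/-- the exponent with the code `(a, m)` -/
noncomputable def JJ (a m : ℕ) : ℕ := 2 * sp a + 4 * sp m + 1

theorem exists_code (J : ℕ) (hJ : J % 2 = 1) : ∃ a m, J = JJ a m := by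
  obtain ⟨e, o, h1, -, -⟩ := digits (J / 2)
  refine ⟨e, o, ?_⟩
  unfold JJ
  omega

theorem mem_WW (a m : ℕ) : Db ^ JJ a m ∈ NIL.WW (a + m + 1) := by
  have h := NIL.WW_mem (c := a + m + 1) (j := sp a + 2 * sp m) (by rw [cont_code]; omega)
  have e : 2 * (sp a + 2 * sp m) + 1 = JJ a m := by unfold JJ; ring
  rw [e] at h
  exact h

/-- vanishing at the integers exactly divisible by many primes `≡ 3 (mod 8)` -/
theorem coeff_kill (a m : ℕ) (s : Finset ℕ) (hs : ∀ q ∈ s, q.Prime ∧ q % 8 = 3)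
    (hcard : a + m + 1 ≤ s.card) (n : ℕ) (hn : ∀ q ∈ s, ¬ q ∣ n) :
    coeff (n * ∏ q ∈ s, q) (Db ^ JJ a m) = 0 := by
  set l := s.toList with hl'
  have hlen : l.length = s.card := by rw [hl', Finset.length_toList]
  have hprod : ∏ q ∈ s, q = l.prod := by
    rw [hl']
    have := Finset.prod_map_toList s (fun q => q)
    rw [← this, List.map_id']
  have hmem : ∀ q ∈ l, q.Prime ∧ q % 8 = 3 := fun q hq' => hs q (Finset.mem_toList.1 hq')
  have h1 := coeff_list l (Finset.nodup_toList s) (fun q hq' => (hmem q hq').1) n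
    (fun q hq' => hn q (Finset.mem_toList.1 hq')) (Db ^ JJ a m)
  rw [hprod, ← h1]
  have h2 := fil_prod fq_main l (fun q hq' => ⟨(hmem q hq').1, Or.inl (hmem q hq').2⟩) _ _
    (mem_WW a m)
  have h3 : (((a + m + 1 : ℕ) : ℤ) + -(l.length : ℤ)).toNat = 0 := by omega
  rw [h3] at h2
  rw [WW_zero h2, map_zero]

theorem Db_pow (J : ℕ) : Db ^ J = X ^ J * PowerSeries.expand 8 (by norm_num)
    (pentagonalSeries (ZMod 2) ^ (3 * J)) := by
  rw [← pow_eq_expand' 8 3 (by norm_num) (by norm_num), Db, mul_pow, ← pow_mul, ← pow_mul]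
  congr 2
  ring

theorem coeff_Db_pow (J n : ℕ) : coeff (8 * n + J) (Db ^ J) =
    coeff n (pentagonalSeries (ZMod 2) ^ (3 * J)) := by
  rw [Db_pow, coeff_X_pow_mul, coeff_expand_mul]

theorem supp_mod (J N : ℕ) (h : coeff N (Db ^ J) ≠ 0) : ∃ n, N = 8 * n + J := by
  rw [Db_pow, coeff_X_pow_mul'] at h
  split_ifs at h with hmN
  · rw [coeff_expand] at h
    split_ifs at h with hd
    · obtain ⟨c, hc⟩ := hd
      exact ⟨c, by omega⟩
    · exact absurd rfl h
  · exact absurd rfl h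

/-- the support of `∏ (1 - X ^ n)` -/
theorem supp_one (n : ℕ) (h : coeff n (pentagonalSeries (ZMod 2)) ≠ 0) :
    ∃ y : ℕ, 24 * n + 1 = y ^ 2 := by
  by_cases hn : n ∈ Set.range pentagonal
  · obtain ⟨j, rfl⟩ := hn
    refine ⟨(6 * j - 1).natAbs, ?_⟩
    have h4 := TH.pent_sq j
    have : (((6 * j - 1).natAbs ^ 2 : ℕ) : ℤ) = ((24 * pentagonal j + 1 : ℕ) : ℤ) := by
      push_cast
      rw [sq_abs, ← h4]
    exact_mod_cast this.symm
  · exact absurd (coeff_pentagonalSeries_eq_zero (ZMod 2) hn) h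

/-- the support of `∏ (1 - X ^ n) ^ 3` -/
theorem supp_three (n : ℕ) (h : coeff n (pentagonalSeries (ZMod 2) ^ 3) ≠ 0) :
    ∃ y : ℕ, 8 * n + 1 = y ^ 2 := by
  classical
  have h1 := coeff_Db_pow 1 n
  rw [mul_one, pow_one] at h1
  rw [← h1, Db_eq_theta, coeff_mk] at h
  split_ifs at h with h2
  · obtain ⟨i, hi⟩ := h2
    exact ⟨_, hi⟩
  · exact absurd rfl h

end Pool.Agent.Q36.PC
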