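import Pool.Agent.Q36.PC.Core

set_option autoImplicit false

/-!
# Counting
-/

namespace Pool.Agent.Q36.PC

open PowerSeries Pool.Agent.H397R2.PP Finset

theorem log_le_two_sqrt (x : ℝ) (hx : 0 < x) : Real.log x ≤ 2 * Real.sqrt x := by
  have h1 : Real.log x = 2 * Real.log (Real.sqrt x) := by
    rw [Real.log_sqrt hx.le]; ring
  have h2 := Real.log_le_sub_one_of_pos (Real.sqrt_pos.2 hx)
  rw [h1]
  linarith

/-- a constant is smaller than `c x / log x` -/
theorem absorb (c B : ℝ) (hc : 0 < c) : ∃ x0 : ℕ, ∀ x : ℕ, x0 ≤ x → B ≤ c * x / Real.log x := by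
  refine ⟨⌈max 2 ((2 * B / c) ^ 2)⌉₊ + 2, fun x hx => ?_⟩
  have h1 : max 2 ((2 * B / c) ^ 2) ≤ (x : ℝ) := by
    have := Nat.le_ceil (max 2 ((2 * B / c) ^ 2))
    have h2 : ((⌈max 2 ((2 * B / c) ^ 2)⌉₊ : ℕ) : ℝ) ≤ x := by exact_mod_cast (by omega)
    exact this.trans h2
  have hx2 : (2 : ℝ) ≤ x := (le_max_left _ _).trans h1
  have hxB : (2 * B / c) ^ 2 ≤ (x : ℝ) := (le_max_right _ _).trans h1
  have hx0 : (0 : ℝ) < x := by linarith
  have hs := Real.sqrt_pos.2 hx0
  have hL : 0 < Real.log x := Real.log_pos (by linarith)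
  have h3 := log_le_two_sqrt x hx0
  have h4 : 2 * B / c ≤ Real.sqrt x := (le_abs_self _).trans (Real.abs_le_sqrt hxB)
  have h5 : 2 * B ≤ Real.sqrt x * c := by rwa [div_le_iff₀ hc] at h4
  rw [le_div_iff₀ hL]
  have h6 : Real.sqrt x * Real.sqrt x = x := Real.mul_self_sqrt hx0.le
  by_cases hB : B ≤ 0
  · nlinarith [mul_pos hc hx0]
  · push Not at hB
    calc B * Real.log x ≤ B * (2 * Real.sqrt x) := mul_le_mul_of_nonneg_left h3 hB.le
      _ = (2 * B) * Real.sqrt x := by ring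
      _ ≤ (Real.sqrt x * c) * Real.sqrt x := mul_le_mul_of_nonneg_right h5 hs.le
      _ = c * (Real.sqrt x * Real.sqrt x) := by ring
      _ = c * x := by rw [h6]

theorem good_count (a m : ℕ) (hw : 1 ≤ a + m) (R : F2X) (hR : R ≠ 0) (b ρ : ℕ) :
    ∃ δ : ℝ, 0 < δ ∧ ∃ x0 : ℕ, ∀ x : ℕ, x0 ≤ x → δ * x / Real.log x ≤
      (((range (x + 1)).filter (fun n => n % 2 ^ b = ρ % 2 ^ b ∧
        coeff n ((R : (ZMod 2)⟦X⟧) * pentagonalSeries (ZMod 2) ^ (3 * JJ a m)) = 1)).card : ℝ) := by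
  classical
  obtain ⟨P0, Q, A, B, hP0, hQ, hAQ, hmain⟩ := setup a m hw R hR b ρ
  obtain ⟨y0, hy0⟩ := prime_count Q A hQ hAQ
  have hφ : (0 : ℝ) < Nat.totient Q := by exact_mod_cast Nat.totient_pos.2 hQ
  have hP0r : (0 : ℝ) < P0 := by exact_mod_cast hP0
  set δ : ℝ := 1 / (16 * P0 * Nat.totient Q) with hδ
  have hδ0 : 0 < δ := by positivity
  obtain ⟨x1, hx1⟩ := absorb δ (B + 1) hδ0
  refine ⟨δ, hδ0, max x1 (max (P0 * (y0 + 2)) (2 * R.natDegree + 2 * P0 + 2)), fun x hx => ?_⟩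
  have hxx1 : x1 ≤ x := (le_max_left _ _).trans hx
  have hxy : P0 * (y0 + 2) ≤ x := ((le_max_left _ _).trans (le_max_right _ _)).trans hx
  have hxR : 2 * R.natDegree + 2 * P0 + 2 ≤ x := ((le_max_right _ _).trans (le_max_right _ _)).trans hx
  set y := x / P0 with hy
  have hyy0 : y0 + 2 ≤ y := (Nat.le_div_iff_mul_le hP0).2 (by rw [mul_comm]; exact hxy)
  have hc := hy0 y (by omega)
  set G := (Icc 1 y).filter (fun p => p.Prime ∧ p ≡ A [MOD Q]) with hG
  set G' := G.filter (fun p => B < p) with hG'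
  have hGG : G.card ≤ G'.card + (B + 1) := by
    have h1 : G ⊆ G' ∪ range (B + 1) := by
      intro p hp
      by_cases h : B < p
      · exact mem_union_left _ (mem_filter.2 ⟨hp, h⟩)
      · exact mem_union_right _ (mem_range.2 (by omega))
    refine (card_le_card h1).trans ((card_union_le _ _).trans ?_)
    rw [card_range]
  have hPp : ∀ p ∈ G', ∃ n, 8 * n + JJ a m = P0 * p ∧ (n + R.natDegree) % 2 ^ b = ρ % 2 ^ b ∧
      coeff (n + R.natDegree) ((R : (ZMod 2)⟦X⟧) * pentagonalSeries (ZMod 2) ^ (3 * JJ a m)) = 1 := by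
    intro p hp
    obtain ⟨hp1, hp2⟩ := mem_filter.1 hp
    obtain ⟨-, hp3, hp4⟩ := mem_filter.1 hp1
    exact hmain p hp3 hp4 hp2
  choose! ν hν using hPp
  have hle : G'.card ≤ ((range (x + 1)).filter (fun n => n % 2 ^ b = ρ % 2 ^ b ∧
        coeff n ((R : (ZMod 2)⟦X⟧) * pentagonalSeries (ZMod 2) ^ (3 * JJ a m)) = 1)).card := by
    apply card_le_card_of_injOn (fun p => ν p + R.natDegree)
    · intro p hp
      rw [mem_coe] at hp
      obtain ⟨h1, h2, h3⟩ := hν p hp
      rw [mem_coe, mem_filter, mem_range]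
      refine ⟨?_, h2, h3⟩
      have hpy : p ≤ y := (mem_Icc.1 (mem_filter.1 (mem_filter.1 hp).1).1).2
      have h4 : P0 * p ≤ x := (Nat.mul_le_mul_left _ hpy).trans (Nat.mul_div_le x P0)
      show ν p + R.natDegree < x + 1
      omega
    · intro p hp q hq hpq
      rw [mem_coe] at hp hq
      simp only at hpq
      have h1 := (hν p hp).1
      have h2 := (hν q hq).1
      have h3 : ν p = ν q := by omega
      rw [h3] at h1
      exact Nat.eq_of_mul_eq_mul_left hP0 (h1.symm.trans h2)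
  have h1 : (G.card : ℝ) ≤ G'.card + (B + 1) := by exact_mod_cast hGG
  have h2 : (G'.card : ℝ) ≤ (((range (x + 1)).filter (fun n => n % 2 ^ b = ρ % 2 ^ b ∧
        coeff n ((R : (ZMod 2)⟦X⟧) * pentagonalSeries (ZMod 2) ^ (3 * JJ a m)) = 1)).card : ℝ) := by
    exact_mod_cast hle
  refine le_trans ?_ h2
  have hyr : (x : ℝ) / (2 * P0) ≤ y := by
    have h3 : x < P0 * (y + 1) := by
      rw [hy, mul_comm]
      exact Nat.lt_mul_of_div_lt (Nat.lt_succ_self _) hP0
    have h4 : (x : ℝ) < P0 * (y + 1) := by exact_mod_cast h3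
    rw [div_le_iff₀ (by positivity)]
    have h5 : (1 : ℝ) ≤ y := by exact_mod_cast (by omega : 1 ≤ y)
    nlinarith
  have hy2 : (2 : ℝ) ≤ y := by exact_mod_cast (by omega : 2 ≤ y)
  have hyx : (y : ℝ) ≤ x := by exact_mod_cast Nat.div_le_self x P0
  have hLy : 0 < Real.log y := Real.log_pos (by linarith)
  have hLyx : Real.log y ≤ Real.log x := Real.log_le_log (by linarith) hyx
  have hLx : 0 < Real.log x := by linarith
  have h6 : 2 * (δ * x / Real.log x) ≤ (y : ℝ) / (4 * Nat.totient Q * Real.log y) := by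
    have e1 : 2 * (δ * x / Real.log x) = (x / (2 * P0)) / (4 * Nat.totient Q * Real.log x) := by
      rw [hδ]
      field_simp
      ring
    rw [e1]
    apply div_le_div₀ (by linarith) hyr (by positivity)
    exact mul_le_mul_of_nonneg_left hLyx (by positivity)
  have h7 := hx1 x hxx1
  linarith

/-- the number of elements of the support of a series with quadratic support -/
theorem supp_card (g : (ZMod 2)⟦X⟧) (d : ℕ) (hd : 1 ≤ d) (hd2 : d ≤ 24)
    (hg : ∀ n, coeff n g ≠ 0 → ∃ y : ℕ, d * n + 1 = y ^ 2) (M : ℕ) (hM : M ≠ 0) (x : ℕ) (hx : 1 ≤ x) :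
    (((range (x + 1)).filter (fun n => coeff n (PowerSeries.expand M hM g) ≠ 0)).card : ℝ) ≤
      7 * Real.sqrt x := by
  classical
  have hxr : (1 : ℝ) ≤ x := by exact_mod_cast hx
  have h1 : ((range (x + 1)).filter (fun n => coeff n (PowerSeries.expand M hM g) ≠ 0)).card ≤
      Nat.sqrt (24 * x + 1) + 1 := by
    have h2 : ∀ n ∈ (range (x + 1)).filter (fun n => coeff n (PowerSeries.expand M hM g) ≠ 0),
        ∃ y : ℕ, M ∣ n ∧ d * (n / M) + 1 = y ^ 2 := by
      intro n hn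
      obtain ⟨-, h3⟩ := mem_filter.1 hn
      rw [PowerSeries.coeff_expand] at h3
      split_ifs at h3 with h4
      · obtain ⟨y, hy⟩ := hg _ h3
        exact ⟨y, h4, hy⟩
      · exact absurd rfl h3
    choose! f hf using h2
    have h3 := card_le_card_of_injOn (s := (range (x + 1)).filter
      (fun n => coeff n (PowerSeries.expand M hM g) ≠ 0)) (t := range (Nat.sqrt (24 * x + 1) + 1)) f
      (fun n hn => by
        obtain ⟨h4, h5⟩ := hf n hn
        rw [mem_coe, mem_range]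
        have h6 : n ≤ x := by
          have := mem_range.1 (mem_filter.1 hn).1
          omega
        have h7 : n / M ≤ x := (Nat.div_le_self _ _).trans h6
        have h8 : f n ^ 2 ≤ 24 * x + 1 := by
          rw [← h5]
          have : d * (n / M) ≤ 24 * x := Nat.mul_le_mul hd2 h7
          omega
        have := Nat.le_sqrt'.2 h8
        omega)
      (fun n hn n' hn' h => by
        obtain ⟨h4, h5⟩ := hf n hn
        obtain ⟨h4', h5'⟩ := hf n' hn'
        rw [h] at h5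
        have h6 : d * (n / M) = d * (n' / M) := by omega
        have h7 := Nat.eq_of_mul_eq_mul_left hd h6
        rw [← Nat.div_mul_cancel h4, ← Nat.div_mul_cancel h4', h7])
    rwa [card_range] at h3
  have h2 : (Nat.sqrt (24 * x + 1) : ℝ) ≤ Real.sqrt (24 * x + 1) := by
    have := Real.nat_sqrt_le_real_sqrt (a := 24 * x + 1)
    push_cast at this
    exact this
  have h3 : Real.sqrt (24 * x + 1) ≤ 5 * Real.sqrt x := by
    rw [show (5 : ℝ) = Real.sqrt 25 by
      rw [show (25 : ℝ) = 5 ^ 2 by norm_num, Real.sqrt_sq (by norm_num)], ← Real.sqrt_mul (by norm_num)]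
    apply Real.sqrt_le_sqrt
    linarith
  have h4 : 1 ≤ Real.sqrt x := Real.one_le_sqrt.2 hxr
  have h5 : (((range (x + 1)).filter (fun n => coeff n (PowerSeries.expand M hM g) ≠ 0)).card : ℝ) ≤
      Nat.sqrt (24 * x + 1) + 1 := by exact_mod_cast h1
  linarith

/-- if `Φ U = Ψ`, the support of `U` consists of multiples of `2 ^ b` and has at most `7 √x` elements up to
`x`, then many ones of `Ψ` in a class modulo `2 ^ b` give many ones of `Φ` -/
theorem transfer (Φ U Ψ : (ZMod 2)⟦X⟧) (h : Φ * U = Ψ) (b ρ : ℕ)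
    (hU : ∀ n, coeff n U ≠ 0 → 2 ^ b ∣ n)
    (hU2 : ∀ x : ℕ, 1 ≤ x → (((range (x + 1)).filter (fun n => coeff n U ≠ 0)).card : ℝ) ≤
      7 * Real.sqrt x)
    (hΨ : ∃ δ : ℝ, 0 < δ ∧ ∃ x0 : ℕ, ∀ x : ℕ, x0 ≤ x → δ * x / Real.log x ≤
      (((range (x + 1)).filter (fun n => n % 2 ^ b = ρ % 2 ^ b ∧ coeff n Ψ = 1)).card : ℝ)) :
    ∃ δ : ℝ, 0 < δ ∧ ∃ x0 : ℕ, ∀ x : ℕ, x0 ≤ x → δ * Real.sqrt x / Real.log x ≤
      (((range (x + 1)).filter (fun n => n % 2 ^ b = ρ % 2 ^ b ∧ coeff n Φ = 1)).card : ℝ) := by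
  classical
  obtain ⟨δ, hδ, x0, hx0⟩ := hΨ
  refine ⟨δ / 7, by positivity, max x0 2, fun x hx => ?_⟩
  have h1 := hx0 x ((le_max_left _ _).trans hx)
  have hx2 : 2 ≤ x := (le_max_right _ _).trans hx
  have hxr : (2 : ℝ) ≤ x := by exact_mod_cast hx2
  have h2 := hU2 x (by omega)
  set W := (range (x + 1)).filter (fun n => n % 2 ^ b = ρ % 2 ^ b ∧ coeff n Ψ = 1) with hW
  set V := (range (x + 1)).filter (fun n => n % 2 ^ b = ρ % 2 ^ b ∧ coeff n Φ = 1) with hV
  set Z := (range (x + 1)).filter (fun n => coeff n U ≠ 0) with hZ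
  have hcard : W.card ≤ V.card * Z.card := by
    rw [← card_product]
    have h3 : ∀ n ∈ W, ∃ z : ℕ × ℕ, z ∈ V ×ˢ Z ∧ z.1 + z.2 = n := by
      intro n hn
      obtain ⟨h4, h5, h6⟩ := mem_filter.1 hn
      rw [← h, PowerSeries.coeff_mul] at h6
      have h7 : ∑ p ∈ Finset.HasAntidiagonal.antidiagonal n, coeff p.1 Φ * coeff p.2 U ≠ 0 := by
        rw [h6]; exact one_ne_zero
      obtain ⟨p, hp, hp2⟩ := Finset.exists_ne_zero_of_sum_ne_zero h7
      rw [Finset.HasAntidiagonal.mem_antidiagonal] at hp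
      have h8 : coeff p.1 Φ ≠ 0 := left_ne_zero_of_mul hp2
      have h9 : coeff p.2 U ≠ 0 := right_ne_zero_of_mul hp2
      rw [mem_range] at h4
      refine ⟨p, mem_product.2 ⟨mem_filter.2 ⟨mem_range.2 (by omega), ?_, ?_⟩,
        mem_filter.2 ⟨mem_range.2 (by omega), h9⟩⟩, hp⟩
      · rw [← h5, ← hp]
        obtain ⟨q, hq⟩ := hU _ h9
        rw [hq, Nat.add_mul_mod_self_left]
      · exact (by decide : ∀ x : ZMod 2, x ≠ 0 → x = 1) _ h8
    choose! f hf using h3
    exact card_le_card_of_injOn f (fun n hn => (hf n hn).1) (fun n hn n' hn' hnn => by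
      rw [← (hf n hn).2, ← (hf n' hn').2, hnn])
  have h3 : (W.card : ℝ) ≤ V.card * Z.card := by exact_mod_cast hcard
  have h4 : (W.card : ℝ) ≤ V.card * (7 * Real.sqrt x) :=
    h3.trans (mul_le_mul_of_nonneg_left h2 (Nat.cast_nonneg _))
  have hs : 0 < Real.sqrt x := Real.sqrt_pos.2 (by linarith)
  have h5 : δ * x / Real.log x ≤ V.card * (7 * Real.sqrt x) := h1.trans h4
  have h6 : Real.sqrt x * Real.sqrt x = x := Real.mul_self_sqrt (by linarith)
  have h7 : δ / 7 * Real.sqrt x / Real.log x * (7 * Real.sqrt x) = δ * x / Real.log x := by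
    calc δ / 7 * Real.sqrt x / Real.log x * (7 * Real.sqrt x) =
        δ * (Real.sqrt x * Real.sqrt x) / Real.log x := by ring
      _ = δ * x / Real.log x := by rw [h6]
  rw [← h7] at h5
  exact le_of_mul_le_mul_right h5 (by positivity)

end Pool.Agent.Q36.PC
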