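import Pool.Agent.H307R2.OP.PC

set_option autoImplicit false

/-!
# Primes in a fixed progression: lower bound for their number, selections of primes
-/

namespace Pool.Agent.Q36.PC

open Finset Filter Topology

/-- the number of primes in a fixed class is at least `x / (4 φ(Q) log x)` -/
theorem prime_count (Q A : ℕ) (hQ : 1 ≤ Q) (hA : A.Coprime Q) : ∃ x0 : ℕ, ∀ x : ℕ, x0 ≤ x →
    (x : ℝ) / (4 * Nat.totient Q * Real.log x) ≤
      (((Icc 1 x).filter (fun p => p.Prime ∧ p ≡ A [MOD Q])).card : ℝ) := by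
  obtain ⟨x1, h⟩ := Pool.Agent.H387R2.Uni.siegel
  have h2 : ∀ᶠ x : ℕ in atTop, (1 : ℝ) / 2 < H343E.pi1 x * Real.log x / x :=
    Pool.Agent.H307R2.OP.PCaux.pi_tend.eventually (lt_mem_nhds (by norm_num))
  have hφ : (0 : ℝ) < Nat.totient Q := by exact_mod_cast Nat.totient_pos.2 (by omega)
  have h3 := Pool.Agent.H307R2.OP.PCaux.log_tend.eventually_ge_atTop
    (max 1 (max (Q : ℝ) (4 * Nat.totient Q)))
  obtain ⟨x0, hx0⟩ := eventually_atTop.1 (h2.and (h3.and (eventually_ge_atTop (max x1 1))))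
  refine ⟨x0, fun x hx => ?_⟩
  obtain ⟨h4, h5, h6⟩ := hx0 x hx
  have hx1 : x1 ≤ x := (le_max_left _ _).trans h6
  have hxp : (0 : ℝ) < x := by
    have : 1 ≤ x := (le_max_right _ _).trans h6
    exact_mod_cast this
  set L := Real.log (x : ℝ) with hL
  have hL1 : 1 ≤ L := (le_max_left _ _).trans h5
  have hLQ : (Q : ℝ) ≤ L := ((le_max_left _ _).trans (le_max_right _ _)).trans h5
  have hLφ : 4 * (Nat.totient Q : ℝ) ≤ L := ((le_max_right _ _).trans (le_max_right _ _)).trans h5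
  have h7 := h x hx1 Q hQ (by nlinarith) (A % Q) (Nat.mod_lt _ (by omega)) (by
    have := (Nat.mod_modEq A Q).gcd_eq
    rw [Nat.coprime_iff_gcd_eq_one, this]
    exact hA)
  have h8 : H343E.piAP x Q (A % Q) =
      (((Icc 1 x).filter (fun p => p.Prime ∧ p ≡ A [MOD Q])).card : ℝ) := by
    unfold H343E.piAP
    congr 2
    ext p
    rw [mem_filter, mem_filter]
    simp only [Nat.ModEq, Nat.mod_mod]
  rw [← h8]
  have h9 : H343E.pi1 x / (Nat.totient Q : ℝ) - x / L ^ 6 ≤ H343E.piAP x Q (A % Q) := by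
    have := (abs_le.1 h7).1
    linarith
  have hLpos : 0 < L := by linarith
  have h10 : (x : ℝ) / (2 * L) ≤ H343E.pi1 x := by
    rw [div_le_iff₀ (by positivity)]
    rw [lt_div_iff₀ hxp] at h4
    linarith
  have h11 : (x : ℝ) / (2 * Nat.totient Q * L) ≤ H343E.pi1 x / Nat.totient Q := by
    rw [le_div_iff₀ hφ]
    refine le_trans (le_of_eq ?_) h10
    field_simp
  have h12 : (x : ℝ) / L ^ 6 ≤ x / (4 * Nat.totient Q * L) := by
    apply div_le_div_of_nonneg_left hxp.le (by positivity)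
    have h13 : L ^ 6 = L * L * L ^ 4 := by ring
    have h14 : 1 ≤ L ^ 4 := one_le_pow₀ hL1
    have h15 : 4 * Nat.totient Q * L ≤ L * L := mul_le_mul_of_nonneg_right hLφ hLpos.le
    rw [h13]
    nlinarith [mul_pos hLpos hLpos]
  have h16 : (x : ℝ) / (2 * Nat.totient Q * L) - x / (4 * Nat.totient Q * L) =
      x / (4 * Nat.totient Q * L) := by
    field_simp
    ring
  linarith

theorem infinite_class (c : ℕ) (hc : c = 3 ∨ c = 5) : {p : ℕ | p.Prime ∧ p % 8 = c}.Infinite := by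
  have h := Nat.infinite_setOfPred_prime_and_modEq (q := 8) (a := c) (by norm_num) (by
    rcases hc with rfl | rfl <;> decide)
  refine h.mono ?_
  rintro p ⟨hp, hpc⟩
  refine ⟨hp, ?_⟩
  have h1 : p % 8 = c % 8 := hpc
  rw [h1]
  rcases hc with rfl | rfl <;> norm_num

/-- `n` large primes in the class `c` modulo 8 -/
theorem exists_primes (c : ℕ) (hc : c = 3 ∨ c = 5) (n B : ℕ) :
    ∃ s : Finset ℕ, s.card = n ∧ ∀ p ∈ s, p.Prime ∧ p % 8 = c ∧ B < p := by
  have h := (infinite_class c hc).sdiff (Set.finite_Iic B)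
  obtain ⟨s, hs, hcard⟩ := h.exists_subset_card_eq n
  refine ⟨s, hcard, fun p hp => ?_⟩
  obtain ⟨⟨h1, h2⟩, h3⟩ := hs hp
  exact ⟨h1, h2, by simpa using h3⟩

/-- a sequence of disjoint sets of large primes `≡ 3 (mod 8)` -/
theorem exists_family (h B : ℕ) : ∃ S : ℕ → Finset ℕ, (∀ k, (S k).card = h) ∧
    (∀ k, ∀ q ∈ S k, q.Prime ∧ q % 8 = 3 ∧ B < q) ∧ ∀ k k', k ≠ k' → Disjoint (S k) (S k') := by
  classical
  have hinf := (infinite_class 3 (Or.inl rfl)).sdiff (Set.finite_Iic B)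
  set P : ℕ → Prop := fun p => p ∈ {p : ℕ | p.Prime ∧ p % 8 = 3} \ Set.Iic B with hP
  have hinf' : (setOf P).Infinite := hinf
  have hmono := Nat.nth_strictMono hinf'
  refine ⟨fun k => (range h).image fun i => Nat.nth P (k * h + i), fun k => ?_, fun k q hq => ?_,
    fun k k' hkk => ?_⟩
  · rw [card_image_of_injective, card_range]
    intro i j hij
    have := hmono.injective hij
    omega
  · obtain ⟨i, -, rfl⟩ := mem_image.1 hq
    obtain ⟨⟨h1, h2⟩, h3⟩ := Nat.nth_mem_of_infinite hinf' (k * h + i)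
    exact ⟨h1, h2, by simpa using h3⟩
  · rw [disjoint_left]
    intro q hq hq'
    obtain ⟨i, hi, rfl⟩ := mem_image.1 hq
    obtain ⟨j, hj, hij⟩ := mem_image.1 hq'
    rw [mem_range] at hi hj
    have h1 := hmono.injective hij
    apply hkk
    have e1 : (k * h + i) / h = k := by
      rw [mul_comm, Nat.mul_add_div (by omega), Nat.div_eq_of_lt hi, add_zero]
    have e2 : (k' * h + j) / h = k' := by
      rw [mul_comm, Nat.mul_add_div (by omega), Nat.div_eq_of_lt hj, add_zero]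
    rw [← e1, ← e2, h1]

end Pool.Agent.Q36.PC
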