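import Pool.Agent.Q36.PC.Alg
import Pool.Agent.Q36.PC.Prm

set_option autoImplicit false

/-!
# Many odd coefficients of `R(X) ∏ (1 - X ^ n) ^ (3 J)` in a class modulo `2 ^ b`
-/

namespace Pool.Agent.Q36.PC

open PowerSeries Pool.Agent.H397R2.PP
open Pool.Agent.H307R2.OP Pool.Agent.H307R2.OP.OC
open Pool.Agent.H413R3.Part Pool.Agent.H413R3.OddT

abbrev F2X : Type := Polynomial (ZMod 2)

theorem coeff_poly_mul (R : F2X) (g : (ZMod 2)⟦X⟧) (n : ℕ) :
    coeff n ((R : (ZMod 2)⟦X⟧) * g) =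
      ∑ k ∈ Finset.range (R.natDegree + 1), if k ≤ n then R.coeff k * coeff (n - k) g else 0 := by
  have h1 : (R : (ZMod 2)⟦X⟧) = ∑ k ∈ Finset.range (R.natDegree + 1),
      PowerSeries.C (R.coeff k) * X ^ k := by
    ext i
    rw [Polynomial.coeff_coe, map_sum]
    simp only [coeff_C_mul, coeff_X_pow]
    by_cases hi : i ∈ Finset.range (R.natDegree + 1)
    · rw [Finset.sum_eq_single i]
      · simp
      · intro k _ hk
        rw [if_neg (Ne.symm hk), mul_zero]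
      · intro h
        exact absurd hi h
    · rw [Finset.sum_eq_zero]
      · rw [Polynomial.coeff_eq_zero_of_natDegree_lt]
        rw [Finset.mem_range] at hi
        omega
      · intro k hk
        rw [if_neg, mul_zero]
        rintro rfl
        exact hi hk
  rw [h1, Finset.sum_mul, map_sum]
  refine Finset.sum_congr rfl fun k _ => ?_
  rw [mul_assoc, coeff_C_mul, coeff_X_pow_mul']
  split_ifs
  · rfl
  · rw [mul_zero]

theorem coeff_one (a m a' m' c : ℕ) (h : (c = 3 ∧ a' + 1 = a ∧ m' = m) ∨ (c = 5 ∧ a' = a ∧ m' + 1 = m))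
    (s3 s5 : Finset ℕ) (h3 : ∀ q ∈ s3, q.Prime ∧ q % 8 = 3) (h5 : ∀ q ∈ s5, q.Prime ∧ q % 8 = 5)
    (c3 : s3.card = a') (c5 : s5.card = m') (p : ℕ) (hp : p.Prime) (hpc : p % 8 = c)
    (hps : p ∉ s3 ∪ s5) : coeff ((∏ q ∈ s3 ∪ s5, q) * p) (Db ^ JJ a m) = 1 := by
  classical
  have hdisj : Disjoint s3 s5 := by
    rw [Finset.disjoint_left]
    intro q hq hq'
    have := (h3 q hq).2
    have := (h5 q hq').2
    omega
  have hf3 : s3.filter (fun q => q % 8 = 3) = s3 := Finset.filter_true_of_mem fun q hq => (h3 q hq).2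
  have hf5 : s5.filter (fun q => q % 8 = 3) = ∅ := Finset.filter_false_of_mem fun q hq => by
    have := (h5 q hq).2
    omega
  have h1 := ocT a m (insert p (s3 ∪ s5)) (by
    intro q hq
    rcases Finset.mem_insert.1 hq with rfl | hq
    · refine ⟨hp, ?_⟩
      rcases h with h | h
      · left; omega
      · right; omega
    · rcases Finset.mem_union.1 hq with hq | hq
      · exact ⟨(h3 q hq).1, Or.inl (h3 q hq).2⟩
      · exact ⟨(h5 q hq).1, Or.inr (h5 q hq).2⟩) (by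
    rw [Finset.card_insert_of_notMem hps, Finset.card_union_of_disjoint hdisj, c3, c5]
    rcases h with h | h <;> omega) (by
    rw [Finset.filter_insert, Finset.filter_union, hf3, hf5, Finset.union_empty]
    rcases h with ⟨h, h', h''⟩ | ⟨h, h', h''⟩
    · rw [if_pos (by omega), Finset.card_insert_of_notMem (fun h => hps (Finset.mem_union_left _ h)),
        c3, h']
    · rw [if_neg (by omega), c3, h'])
  rw [Finset.prod_insert hps, mul_comm] at h1
  exact h1

theorem exact_div (s : Finset ℕ) (hs : ∀ q ∈ s, q.Prime) (N : ℕ)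
    (h : ∀ q ∈ s, q ∣ N ∧ ¬ q ^ 2 ∣ N) : ∃ n, N = n * ∏ q ∈ s, q ∧ ∀ q ∈ s, ¬ q ∣ n := by
  have h1 : ∏ q ∈ s, q ∣ N := Finset.prod_primes_dvd N (fun q hq => (hs q hq).prime)
    (fun q hq => (h q hq).1)
  obtain ⟨n, hn⟩ := h1
  refine ⟨n, by rw [hn, mul_comm], fun q hq hqn => (h q hq).2 ?_⟩
  rw [hn, pow_two]
  exact mul_dvd_mul (Finset.dvd_prod_of_mem (fun q => q) hq) hqn

/-- the choice of the progression -/
theorem setup (a m : ℕ) (hw : 1 ≤ a + m) (R : F2X) (hR : R ≠ 0) (b ρ : ℕ) :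
    ∃ P0 Q A B : ℕ, 0 < P0 ∧ 0 < Q ∧ A.Coprime Q ∧ ∀ p : ℕ, p.Prime → p ≡ A [MOD Q] → B < p →
      ∃ n, 8 * n + JJ a m = P0 * p ∧ (n + R.natDegree) % 2 ^ b = ρ % 2 ^ b ∧
        coeff (n + R.natDegree) ((R : (ZMod 2)⟦X⟧) * pentagonalSeries (ZMod 2) ^ (3 * JJ a m)) = 1 := by
  classical
  set J := JJ a m with hJ
  set k0 := R.natDegree with hk0
  have hJodd : J % 2 = 1 := by rw [hJ, JJ]; omega
  obtain ⟨S, hScard, hS, hSdisj⟩ := exists_family (a + m + 1) (8 * k0 + 8)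
  set T : Finset ℕ := (Finset.range k0).biUnion S with hT
  set B1 : ℕ := ∑ q ∈ T, q with hB1
  have hTle : ∀ q ∈ T, q ≤ B1 := fun q hq =>
    Finset.single_le_sum (f := fun q => q) (fun _ _ => Nat.zero_le _) hq
  obtain ⟨c, a', m', hc⟩ : ∃ c a' m', (c = 3 ∧ a' + 1 = a ∧ m' = m) ∨
      (c = 5 ∧ a' = a ∧ m' + 1 = m) := by
    rcases Nat.eq_zero_or_pos m with h | h
    · exact ⟨3, a - 1, m, Or.inl ⟨rfl, by omega, rfl⟩⟩
    · exact ⟨5, a, m - 1, Or.inr ⟨rfl, rfl, by omega⟩⟩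
  obtain ⟨s3, hs3c, hs3⟩ := exists_primes 3 (Or.inl rfl) a' B1
  obtain ⟨s5, hs5c, hs5⟩ := exists_primes 5 (Or.inr rfl) m' B1
  set s0 := s3 ∪ s5 with hs0
  set P0 := ∏ q ∈ s0, q with hP0
  have hs0p : ∀ q ∈ s0, q.Prime ∧ q % 2 = 1 ∧ B1 < q := by
    intro q hq
    rcases Finset.mem_union.1 hq with h | h
    · have := hs3 q h
      exact ⟨this.1, by omega, this.2.2⟩
    · have := hs5 q h
      exact ⟨this.1, by omega, this.2.2⟩
  have hP0pos : 0 < P0 := Finset.prod_pos fun q hq => (hs0p q hq).1.pos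
  -- the index of a killing prime
  have hTk : ∀ q ∈ T, ∃ k, k < k0 ∧ q ∈ S k := by
    intro q hq
    obtain ⟨k, hk, hqk⟩ := Finset.mem_biUnion.1 hq
    exact ⟨k, Finset.mem_range.1 hk, hqk⟩
  have hTp : ∀ q ∈ T, q.Prime ∧ q % 8 = 3 ∧ 8 * k0 + 8 < q := by
    intro q hq
    obtain ⟨k, -, hqk⟩ := hTk q hq
    exact hS k q hqk
  choose! κ hκ using hTk
  have hκu : ∀ k < k0, ∀ q ∈ S k, q ∈ T ∧ κ q = k := by
    intro k hk q hq
    have hqT : q ∈ T := Finset.mem_biUnion.2 ⟨k, Finset.mem_range.2 hk, hq⟩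
    refine ⟨hqT, ?_⟩
    by_contra hne
    exact Finset.disjoint_left.1 (hSdisj _ _ hne) (hκ q hqT).2 hq
  -- the moduli
  set t : Finset ℕ := insert 0 T with ht
  have h0T : 0 ∉ T := fun h => (hTp 0 h).1.ne_zero rfl
  set md : ℕ → ℕ := fun i => if i = 0 then 2 ^ (b + 3) else i ^ 2 with hmd
  set tg : ℕ → ℕ := fun i => if i = 0 then 8 * (ρ + (2 ^ b - 1) * k0) + J else
    i + (i ^ 2 - 1) * (8 * (k0 - κ i)) with htg
  have hmdT : ∀ q ∈ T, md q = q ^ 2 := fun q hq => by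
    rw [hmd]; simp only; rw [if_neg (hTp q hq).1.ne_zero]
  have hmd0 : md 0 = 2 ^ (b + 3) := by rw [hmd]; simp
  have hmdne : ∀ i ∈ t, md i ≠ 0 := by
    intro i hi
    rcases Finset.mem_insert.1 hi with rfl | hi
    · rw [hmd0]; positivity
    · rw [hmdT i hi]; exact pow_ne_zero _ (hTp i hi).1.ne_zero
  have hodd : ∀ q ∈ T, Nat.Coprime q 2 := by
    intro q hq
    have := (hTp q hq).2.1
    exact (Nat.coprime_primes (hTp q hq).1 Nat.prime_two).2 (by omega)
  have hpair : Set.Pairwise (t : Set ℕ) (Function.onFun Nat.Coprime md) := by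
    intro i hi j hj hij
    rw [Finset.mem_coe, ht, Finset.mem_insert] at hi hj
    rw [Function.onFun]
    rcases hi with rfl | hi
    · rcases hj with rfl | hj
      · exact absurd rfl hij
      · rw [hmd0, hmdT j hj]
        exact (Nat.Coprime.pow 2 (b + 3) (hodd j hj)).symm
    · rcases hj with rfl | hj
      · rw [hmd0, hmdT i hi]
        exact Nat.Coprime.pow 2 (b + 3) (hodd i hi)
      · rw [hmdT i hi, hmdT j hj]
        exact Nat.Coprime.pow 2 2 ((Nat.coprime_primes (hTp i hi).1 (hTp j hj).1).2 hij)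
  obtain ⟨ν, hν⟩ := Nat.chineseRemainderOfFinset tg md t hmdne hpair
  set Q := ∏ i ∈ t, md i with hQ
  have hQpos : 0 < Q := Finset.prod_pos fun i hi => Nat.pos_of_ne_zero (hmdne i hi)
  have hQd : ∀ i ∈ t, md i ∣ Q := fun i hi => Finset.dvd_prod_of_mem md hi
  -- coprimality
  have hP0Q : P0.Coprime Q := by
    apply Nat.Coprime.prod_left
    intro q hq
    apply Nat.Coprime.prod_right
    intro i hi
    obtain ⟨hq1, hq2, hq3⟩ := hs0p q hq
    rcases Finset.mem_insert.1 hi with rfl | hi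
    · rw [hmd0]
      exact Nat.Coprime.pow_right _ ((Nat.coprime_primes hq1 Nat.prime_two).2 (by omega))
    · rw [hmdT i hi]
      refine Nat.Coprime.pow_right _ ((Nat.coprime_primes hq1 (hTp i hi).1).2 ?_)
      have := hTle i hi
      omega
  have hνQ : ν.Coprime Q := by
    apply Nat.Coprime.prod_right
    intro i hi
    have h1 := hν i hi
    rcases Finset.mem_insert.1 hi with rfl | hi
    · rw [hmd0]
      apply Nat.Coprime.pow_right
      rw [hmd0] at h1
      have h2 : ν ≡ tg 0 [MOD 2] := h1.of_dvd (dvd_pow_self 2 (by omega))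
      have h3 : tg 0 % 2 = 1 := by rw [htg]; simp only [if_true]; omega
      have h4 : ν % 2 = 1 := by rw [← h3]; exact h2
      exact (Nat.coprime_two_right).2 (Nat.odd_iff.2 h4)
    · rw [hmdT i hi] at h1 ⊢
      apply Nat.Coprime.pow_right
      obtain ⟨hq1, hq2, hq3⟩ := hTp i hi
      rw [Nat.coprime_comm, Nat.Prime.coprime_iff_not_dvd hq1]
      intro hd
      have h2 : ν ≡ tg i [MOD i] := h1.of_dvd (dvd_pow_self i (by norm_num))
      have h3 : i ∣ tg i := (Nat.modEq_zero_iff_dvd).1 (h2.symm.trans ((Nat.modEq_zero_iff_dvd).2 hd))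
      have h4 : tg i = i + (i ^ 2 - 1) * (8 * (k0 - κ i)) := by
        rw [htg]; simp only; rw [if_neg hq1.ne_zero]
      rw [h4] at h3
      have h5 : i ∣ (i ^ 2 - 1) * (8 * (k0 - κ i)) := (Nat.dvd_add_right (dvd_refl i)).1 h3
      have h6 : i ∣ (i ^ 2 - 1) * (8 * (k0 - κ i)) + 1 * (8 * (k0 - κ i)) := by
        rw [← add_mul, Nat.sub_add_cancel (Nat.one_le_pow _ _ hq1.pos)]
        exact Dvd.dvd.mul_right (dvd_pow_self i (by norm_num)) _
      have h7 := (Nat.dvd_add_right h5).1 h6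
      rw [one_mul] at h7
      have h8 := (hκ i hi).1
      have h9 := Nat.le_of_dvd (by omega) h7
      omega
  obtain ⟨m1, hm1⟩ : ∃ m1, P0 * m1 ≡ 1 [MOD Q] := by
    rcases Nat.eq_or_lt_of_le hQpos with h | h
    · exact ⟨0, by rw [← h]; exact Nat.modEq_one⟩
    · obtain ⟨m1, hm⟩ := Nat.exists_mul_mod_eq_one_of_coprime hP0Q h
      exact ⟨m1, by rw [Nat.ModEq, hm.2, Nat.mod_eq_of_lt h]⟩
  set A := m1 * ν with hA
  have hP0A : P0 * A ≡ ν [MOD Q] := by
    have := hm1.mul_right ν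
    rw [one_mul] at this
    rw [hA, ← mul_assoc]
    exact this
  have hAQ : A.Coprime Q := by
    have h1 : (P0 * A).Coprime Q := by
      rw [Nat.coprime_iff_gcd_eq_one, hP0A.gcd_eq]
      exact hνQ
    exact Nat.Coprime.coprime_dvd_left (Dvd.intro_left P0 rfl) h1
  -- the class of the last prime
  obtain ⟨ps, hps1, hps2, hps3⟩ : ∃ ps : ℕ, ps.Prime ∧ ps % 8 = c ∧ ps ∉ s0 := by
    obtain ⟨s, hsc, hs⟩ := exists_primes c (by rcases hc with h | h <;> omega) 1 (∑ q ∈ s0, q)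
    obtain ⟨p, hp⟩ := Finset.card_pos.1 (by omega : 0 < s.card)
    refine ⟨p, (hs p hp).1, (hs p hp).2.1, fun h => ?_⟩
    have h1 := Finset.single_le_sum (f := fun q => q) (fun _ _ => Nat.zero_le _) h
    have h2 := (hs p hp).2.2
    omega
  have hcoef : ∀ p : ℕ, p.Prime → p % 8 = c → p ∉ s0 → coeff (P0 * p) (Db ^ J) = 1 :=
    fun p hp hpc hps => coeff_one a m a' m' c hc s3 s5 (fun q hq => ⟨(hs3 q hq).1, (hs3 q hq).2.1⟩)
      (fun q hq => ⟨(hs5 q hq).1, (hs5 q hq).2.1⟩) hs3c hs5c p hp hpc hps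
  have hps4 : P0 * ps ≡ J [MOD 8] := by
    obtain ⟨n, hn⟩ := supp_mod J (P0 * ps) (by rw [hcoef ps hps1 hps2 hps3]; exact one_ne_zero)
    rw [hn, Nat.ModEq, Nat.mul_add_mod]
  have hP08 : Nat.Coprime 8 P0 := by
    have : (8 : ℕ) ∣ Q := (by
      have h1 := hQd 0 (Finset.mem_insert_self _ _)
      rw [hmd0] at h1
      exact (Dvd.intro (2 ^ b) (by rw [pow_add]; ring)).trans h1)
    exact (Nat.Coprime.coprime_dvd_right this hP0Q).symm
  refine ⟨P0, Q, A, J + ∑ q ∈ s0, q, hP0pos, hQpos, hAQ, fun p hp hpA hpB => ?_⟩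
  have hN : P0 * p ≡ ν [MOD Q] := (hpA.mul_left P0).trans hP0A
  have hNi : ∀ i ∈ t, P0 * p ≡ tg i [MOD md i] := fun i hi => (hN.of_dvd (hQd i hi)).trans (hν i hi)
  have hN0 : P0 * p ≡ 8 * (ρ + (2 ^ b - 1) * k0) + J [MOD 2 ^ (b + 3)] := by
    have h1 := hNi 0 (Finset.mem_insert_self _ _)
    rw [hmd0] at h1
    have h2 : tg 0 = 8 * (ρ + (2 ^ b - 1) * k0) + J := by rw [htg]; simp
    rw [h2] at h1
    exact h1
  have hN8 : P0 * p ≡ J [MOD 8] := by
    have h1 := hN0.of_dvd (Dvd.intro (2 ^ b) (by rw [pow_add]; ring) : 8 ∣ 2 ^ (b + 3))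
    refine h1.trans ?_
    rw [Nat.ModEq, Nat.mul_add_mod]
  have hp8 : p % 8 = c := by
    rw [← hps2]
    exact Nat.ModEq.cancel_left_of_coprime (c := P0) (by
      rw [← Nat.coprime_iff_gcd_eq_one]; exact hP08) (hN8.trans hps4.symm)
  have hpS : p ∉ s0 := by
    intro h
    have h1 := Finset.single_le_sum (f := fun q => q) (fun _ _ => Nat.zero_le _) h
    omega
  have hJle : J ≤ P0 * p := by
    have : p ≤ P0 * p := Nat.le_mul_of_pos_left _ hP0pos
    omega
  obtain ⟨n, hn⟩ : ∃ n, P0 * p = 8 * n + J := by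
    have h1 : P0 * p % 8 = J % 8 := hN8
    exact ⟨(P0 * p - J) / 8, by omega⟩
  refine ⟨n, hn.symm, ?_, ?_⟩
  · rw [hn] at hN0
    have h1 : 8 * n ≡ 8 * (ρ + (2 ^ b - 1) * k0) [MOD 2 ^ (b + 3)] := Nat.ModEq.add_right_cancel' J hN0
    have h2 : n ≡ ρ + (2 ^ b - 1) * k0 [MOD 2 ^ b] := by
      have h3 : 2 ^ (b + 3) = 8 * 2 ^ b := by rw [pow_add]; ring
      rw [h3] at h1
      exact Nat.ModEq.mul_left_cancel' (by norm_num) h1
    have h4 := h2.add_right k0
    have h5 : ρ + (2 ^ b - 1) * k0 + k0 = ρ + 2 ^ b * k0 := by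
      have h6 : (2 ^ b - 1) * k0 + k0 = 2 ^ b * k0 := by
        conv_lhs => rw [← Nat.succ_mul, Nat.succ_eq_add_one,
          Nat.sub_add_cancel (Nat.one_le_two_pow)]
      omega
    rw [h5] at h4
    have h7 : (n + k0) % 2 ^ b = (ρ + 2 ^ b * k0) % 2 ^ b := h4
    rw [h7, Nat.add_mul_mod_self_left]
  · rw [coeff_poly_mul, ← hk0, Finset.sum_eq_single k0]
    · rw [if_pos (by omega), Nat.add_sub_cancel, ← coeff_Db_pow, ← hn, hcoef p hp hp8 hpS, mul_one]
      have h1 : R.coeff k0 ≠ 0 := by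
        rw [hk0]
        exact Polynomial.leadingCoeff_ne_zero.2 hR
      exact (by decide : ∀ x : ZMod 2, x ≠ 0 → x = 1) _ h1
    · intro k hk hkne
      rw [Finset.mem_range] at hk
      have hklt : k < k0 := by omega
      rw [if_pos (by omega), ← coeff_Db_pow]
      have h1 : 8 * (n + k0 - k) + J = P0 * p + 8 * (k0 - k) := by omega
      rw [h1]
      obtain ⟨n', hn', hn2⟩ := exact_div (S k) (fun q hq => (hS k q hq).1) (P0 * p + 8 * (k0 - k)) (by
        intro q hq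
        obtain ⟨hqT, hκq⟩ := hκu k hklt q hq
        have hqp := (hS k q hq).1
        have h2 := hNi q (Finset.mem_insert_of_mem hqT)
        rw [hmdT q hqT] at h2
        have h3 : tg q = q + (q ^ 2 - 1) * (8 * (k0 - k)) := by
          rw [htg]; simp only; rw [if_neg hqp.ne_zero, hκq]
        rw [h3] at h2
        have h4 := h2.add_right (8 * (k0 - k))
        have h5 : q + (q ^ 2 - 1) * (8 * (k0 - k)) + 8 * (k0 - k) = q + q ^ 2 * (8 * (k0 - k)) := by
          have h6 : (q ^ 2 - 1) * (8 * (k0 - k)) + 1 * (8 * (k0 - k)) = q ^ 2 * (8 * (k0 - k)) := by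
            rw [← add_mul, Nat.sub_add_cancel (Nat.one_le_pow _ _ hqp.pos)]
          omega
        rw [h5] at h4
        have h6 : P0 * p + 8 * (k0 - k) ≡ q [MOD q ^ 2] := by
          refine h4.trans ?_
          rw [Nat.ModEq, Nat.add_mul_mod_self_left]
        refine ⟨?_, fun hd => ?_⟩
        · have h7 := h6.of_dvd (dvd_pow_self q (by norm_num : (2 : ℕ) ≠ 0))
          exact (Nat.modEq_zero_iff_dvd).1 (h7.trans ((Nat.modEq_zero_iff_dvd).2 (dvd_refl q)))
        · have h7 : q ^ 2 ∣ q := (Nat.modEq_zero_iff_dvd).1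
            (h6.symm.trans ((Nat.modEq_zero_iff_dvd).2 hd))
          have h8 := Nat.le_of_dvd hqp.pos h7
          have h9 := hqp.two_le
          nlinarith)
      rw [hn', hJ, coeff_kill a m (S k) (fun q hq => ⟨(hS k q hq).1, (hS k q hq).2.1⟩)
        (by rw [hScard]) n' hn2, mul_zero]
    · intro h
      exact absurd (Finset.mem_range.2 (by omega)) h

end Pool.Agent.Q36.PC
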