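import Pool.Agent.Q36.PC.Cnt

set_option autoImplicit false

/-!
# Linear patterns of multipartition functions take both parities often
-/

namespace Pool.Agent.Q36.PC

open PowerSeries Pool.Agent.H397R2.PP Finset
open Pool.Agent.H307R2.OP Pool.Agent.H307R2.OP.OC Pool.Agent.H413R3.Part

/-- the partition series modulo 2 -/
noncomputable abbrev PP : (ZMod 2)⟦X⟧ := Pool.Agent.TH693.PP.P

theorem PP_mul : PP * pentagonalSeries (ZMod 2) = 1 := Pool.Agent.TH693.PP.P_mul_E

theorem coeff_PP (t n : ℕ) : coeff n (PP ^ t) = (mp t n : ZMod 2) := coeff_pow_eq t n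

theorem code_pos {J a m : ℕ} (h : J = JJ a m) (hJ : 3 ≤ J) : 1 ≤ a + m := by
  by_contra hcon
  have h1 : a = 0 := by omega
  have h2 : m = 0 := by omega
  subst h1; subst h2
  rw [JJ, sp_zero] at h
  omega

theorem odd_count (t : ℕ) (ht : Odd t) (R : F2X) (hR : R ≠ 0) (b ρ : ℕ) :
    ∃ δ : ℝ, 0 < δ ∧ ∃ x0 : ℕ, ∀ x : ℕ, x0 ≤ x → δ * Real.sqrt x / Real.log x ≤
      (((range (x + 1)).filter (fun n => n % 2 ^ b = ρ % 2 ^ b ∧
        coeff n ((R : (ZMod 2)⟦X⟧) * PP ^ t) = 1)).card : ℝ) := by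
  classical
  have hpow : ∀ e, b + t + 4 ≤ e → t + 16 ≤ 2 ^ e := by
    intro e he
    have h1 : t + 1 ≤ 2 ^ t := Nat.lt_two_pow_self
    have h2 : 2 ^ (t + 4) ≤ 2 ^ e := Nat.pow_le_pow_right (by norm_num) (by omega)
    rw [pow_add] at h2
    omega
  have hev : ∀ e, b + t + 4 ≤ e → 2 ^ e % 2 = 0 := by
    intro e he
    obtain ⟨e', rfl⟩ : ∃ e', e = e' + 1 := ⟨e - 1, by omega⟩
    rw [pow_succ]
    omega
  obtain ⟨t', ht'⟩ := ht
  by_cases h3 : t % 3 = 0
  · set e := b + t + 4 with he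
    have hp := hpow e le_rfl
    have hv := hev e le_rfl
    obtain ⟨s, hs⟩ : ∃ s, t = 3 * s := ⟨t / 3, by omega⟩
    obtain ⟨a, m, hJ⟩ := exists_code (2 ^ e - s) (by omega)
    have hw := code_pos hJ (by omega)
    refine transfer _ (PowerSeries.expand (2 ^ e) (by positivity) (pentagonalSeries (ZMod 2) ^ 3))
      ((R : (ZMod 2)⟦X⟧) * pentagonalSeries (ZMod 2) ^ (3 * JJ a m)) ?_ b ρ ?_ ?_
      (good_count a m hw R hR b ρ)
    · rw [← pow_eq_expand' (2 ^ e) e (by positivity) rfl, ← pow_mul]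
      have h4 : 3 * 2 ^ e = t + 3 * JJ a m := by rw [← hJ]; omega
      rw [h4, pow_add, mul_assoc, ← mul_assoc (PP ^ t), ← mul_pow, PP_mul, one_pow, one_mul]
    · intro n hn
      rw [PowerSeries.coeff_expand] at hn
      split_ifs at hn with h4
      · exact (Nat.pow_dvd_pow 2 (by omega)).trans h4
      · exact absurd rfl hn
    · intro x hx
      exact supp_card _ 8 (by norm_num) (by norm_num) supp_three _ _ x hx
  · obtain ⟨e, he, he3⟩ : ∃ e, b + t + 4 ≤ e ∧ 2 ^ e % 3 = t % 3 := by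
      have h4 : 2 ^ (b + t + 4) % 3 = 1 ∨ 2 ^ (b + t + 4) % 3 = 2 := by
        have h5 : ¬ 3 ∣ 2 ^ (b + t + 4) := fun h =>
          absurd (Nat.prime_three.dvd_of_dvd_pow h) (by norm_num)
        omega
      by_cases h5 : 2 ^ (b + t + 4) % 3 = t % 3
      · exact ⟨_, le_rfl, h5⟩
      · refine ⟨b + t + 4 + 1, by omega, ?_⟩
        rw [pow_succ]
        omega
    have hp := hpow e he
    have hv := hev e he
    obtain ⟨J, hJ0⟩ : ∃ J, 3 * J + t = 2 ^ e := ⟨(2 ^ e - t) / 3, by omega⟩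
    obtain ⟨a, m, hJ⟩ := exists_code J (by omega)
    have hw := code_pos hJ (by omega)
    refine transfer _ (PowerSeries.expand (2 ^ e) (by positivity) (pentagonalSeries (ZMod 2)))
      ((R : (ZMod 2)⟦X⟧) * pentagonalSeries (ZMod 2) ^ (3 * JJ a m)) ?_ b ρ ?_ ?_
      (good_count a m hw R hR b ρ)
    · rw [← pow_eq_expand' (2 ^ e) e (by positivity) rfl]
      have h4 : 2 ^ e = t + 3 * JJ a m := by rw [← hJ]; omega
      rw [h4, pow_add, mul_assoc, ← mul_assoc (PP ^ t), ← mul_pow, PP_mul, one_pow, one_mul]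
    · intro n hn
      rw [PowerSeries.coeff_expand] at hn
      split_ifs at hn with h4
      · exact (Nat.pow_dvd_pow 2 (by omega)).trans h4
      · exact absurd rfl hn
    · intro x hx
      exact supp_card _ 24 (by norm_num) le_rfl supp_one _ _ x hx

/-- a constant is smaller than `c √x / log x` -/
theorem absorb2 (c B : ℝ) (hc : 0 < c) : ∃ x0 : ℕ, ∀ x : ℕ, x0 ≤ x →
    B ≤ c * Real.sqrt x / Real.log x := by
  refine ⟨⌈max 2 ((4 * B / c) ^ 4)⌉₊ + 2, fun x hx => ?_⟩
  have h1 : max 2 ((4 * B / c) ^ 4) ≤ (x : ℝ) := by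
    have := Nat.le_ceil (max 2 ((4 * B / c) ^ 4))
    have h2 : ((⌈max 2 ((4 * B / c) ^ 4)⌉₊ : ℕ) : ℝ) ≤ x := by exact_mod_cast (by omega)
    exact this.trans h2
  have hx2 : (2 : ℝ) ≤ x := (le_max_left _ _).trans h1
  have hxB : (4 * B / c) ^ 4 ≤ (x : ℝ) := (le_max_right _ _).trans h1
  have hx0 : (0 : ℝ) < x := by linarith
  have hs := Real.sqrt_pos.2 hx0
  have hss := Real.sqrt_pos.2 hs
  have hL : 0 < Real.log x := Real.log_pos (by linarith)
  have h3 : Real.log x ≤ 4 * Real.sqrt (Real.sqrt x) := by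
    have h4 := log_le_two_sqrt (Real.sqrt x) hs
    rw [Real.log_sqrt hx0.le] at h4
    linarith
  have h4 : 4 * B / c ≤ Real.sqrt (Real.sqrt x) := by
    refine (le_abs_self _).trans (Real.abs_le_sqrt ?_)
    apply (le_abs_self _).trans
    apply Real.abs_le_sqrt
    rw [← pow_mul]
    exact hxB
  have h5 : 4 * B ≤ Real.sqrt (Real.sqrt x) * c := by rwa [div_le_iff₀ hc] at h4
  rw [le_div_iff₀ hL]
  have h6 : Real.sqrt (Real.sqrt x) * Real.sqrt (Real.sqrt x) = Real.sqrt x :=
    Real.mul_self_sqrt hs.le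
  by_cases hB : B ≤ 0
  · nlinarith [mul_pos hc hs]
  · push Not at hB
    calc B * Real.log x ≤ B * (4 * Real.sqrt (Real.sqrt x)) := mul_le_mul_of_nonneg_left h3 hB.le
      _ = (4 * B) * Real.sqrt (Real.sqrt x) := by ring
      _ ≤ (Real.sqrt (Real.sqrt x) * c) * Real.sqrt (Real.sqrt x) :=
          mul_le_mul_of_nonneg_right h5 hss.le
      _ = c * (Real.sqrt (Real.sqrt x) * Real.sqrt (Real.sqrt x)) := by ring
      _ = c * Real.sqrt x := by rw [h6]

/-- the polynomial of a pattern -/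
noncomputable def RR (L : ℕ) (c : Fin (L + 1) → ZMod 2) : F2X :=
  ∑ i : Fin (L + 1), Polynomial.C (c i) * Polynomial.X ^ (L - (i : ℕ))

theorem RR_ne (L : ℕ) (c : Fin (L + 1) → ZMod 2) (hc : c ≠ 0) : RR L c ≠ 0 := by
  intro h0
  apply hc
  funext i
  have h4 := congrArg (fun q : F2X => q.coeff (L - i)) h0
  simp only [RR, Polynomial.finsetSum_coeff, Polynomial.coeff_zero] at h4
  rw [Finset.sum_eq_single i] at h4
  · rw [Polynomial.coeff_C_mul, Polynomial.coeff_X_pow, if_pos rfl, mul_one] at h4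
    exact h4
  · intro i' _ hi'
    rw [Polynomial.coeff_C_mul, Polynomial.coeff_X_pow, if_neg, mul_zero]
    intro h5
    apply hi'
    have q1 := i.2
    have q2 := i'.2
    exact Fin.ext (by omega)
  · intro h5
    exact absurd (Finset.mem_univ _) h5

theorem coeff_RR (L : ℕ) (c : Fin (L + 1) → ZMod 2) (g : (ZMod 2)⟦X⟧) (n : ℕ) :
    coeff (n + L) ((RR L c : (ZMod 2)⟦X⟧) * g) = ∑ i : Fin (L + 1), c i * coeff (n + i) g := by
  have h1 : (RR L c : (ZMod 2)⟦X⟧) = ∑ i : Fin (L + 1), PowerSeries.C (c i) * X ^ (L - (i : ℕ)) := by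
    rw [RR]
    have : ∀ f : Fin (L + 1) → F2X, ((∑ i, f i : F2X) : (ZMod 2)⟦X⟧) = ∑ i, (f i : (ZMod 2)⟦X⟧) :=
      fun f => map_sum (Polynomial.coeToPowerSeries.ringHom (R := ZMod 2)) f Finset.univ
    rw [this]
    refine Finset.sum_congr rfl fun i _ => ?_
    rw [Polynomial.coe_mul, Polynomial.coe_pow, Polynomial.coe_C, Polynomial.coe_X]
  rw [h1, Finset.sum_mul, map_sum]
  refine Finset.sum_congr rfl fun i _ => ?_
  have h3 : n + L = (n + i) + (L - i) := by have := i.2; omega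
  rw [mul_assoc, coeff_C_mul, h3, coeff_X_pow_mul]

/-- **the main theorem** -/
theorem pattern_count (t : ℕ) (ht : Odd t) (L : ℕ) (c : Fin (L + 1) → ZMod 2) (hc : c ≠ 0)
    (b ρ : ℕ) (κ : ZMod 2) :
    ∃ δ : ℝ, 0 < δ ∧ ∃ x0 : ℕ, ∀ x : ℕ, x0 ≤ x → δ * Real.sqrt x / Real.log x ≤
      (((range (x + 1)).filter (fun n => n % 2 ^ b = ρ % 2 ^ b ∧
        ∑ i : Fin (L + 1), c i * (mp t (n + i) : ZMod 2) = κ)).card : ℝ) := by
  classical
  have hR := RR_ne L c hc
  have hco : ∀ n, coeff (n + L) ((RR L c : (ZMod 2)⟦X⟧) * PP ^ t) =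
      ∑ i : Fin (L + 1), c i * (mp t (n + i) : ZMod 2) := by
    intro n
    rw [coeff_RR]
    exact Finset.sum_congr rfl fun i _ => by rw [coeff_PP]
  rcases (by decide : ∀ κ : ZMod 2, κ = 0 ∨ κ = 1) κ with rfl | rfl
  · -- even values
    set R' : F2X := (Polynomial.X ^ 2 ^ b + 1) * RR L c with hR'
    have hne : (Polynomial.X ^ 2 ^ b + 1 : F2X) ≠ 0 := by
      intro h0
      have h1 := congrArg (fun q : F2X => q.coeff 0) h0
      simp only [Polynomial.coeff_add, Polynomial.coeff_X_pow, Polynomial.coeff_one_zero,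
        Polynomial.coeff_zero] at h1
      rw [if_neg (by positivity), zero_add] at h1
      exact one_ne_zero h1
    obtain ⟨δ, hδ, x0, hx0⟩ := odd_count t ht R' (mul_ne_zero hne hR) b (ρ + L)
    obtain ⟨x1, hx1⟩ := absorb2 (δ / 2) (2 ^ b + L) (by positivity)
    refine ⟨δ / 4, by positivity, max (max x0 x1) 2, fun x hx => ?_⟩
    have h0 := hx0 x (((le_max_left _ _).trans (le_max_left _ _)).trans hx)
    have h1 := hx1 x (((le_max_right _ _).trans (le_max_left _ _)).trans hx)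
    set W := (range (x + 1)).filter (fun n => n % 2 ^ b = (ρ + L) % 2 ^ b ∧
        coeff n ((R' : (ZMod 2)⟦X⟧) * PP ^ t) = 1) with hW
    set V := (range (x + 1)).filter (fun n => n % 2 ^ b = ρ % 2 ^ b ∧
        ∑ i : Fin (L + 1), c i * (mp t (n + i) : ZMod 2) = 0) with hV
    have hcard : W.card ≤ (V.card + V.card) + (2 ^ b + L) := by
      have h2 : W ⊆ (V.image (fun n => n + L) ∪ V.image (fun n => n + 2 ^ b + L)) ∪
          range (2 ^ b + L) := by
        intro n hn
        obtain ⟨h3, h4, h5⟩ := mem_filter.1 hn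
        rw [mem_range] at h3
        by_cases h6 : n < 2 ^ b + L
        · exact mem_union_right _ (mem_range.2 h6)
        · apply mem_union_left
          obtain ⟨q, rfl⟩ : ∃ q, n = q + 2 ^ b + L := ⟨n - (2 ^ b + L), by omega⟩
          have h7 : coeff (q + 2 ^ b + L) ((R' : (ZMod 2)⟦X⟧) * PP ^ t) =
              ∑ i : Fin (L + 1), c i * (mp t (q + i) : ZMod 2) +
              ∑ i : Fin (L + 1), c i * (mp t (q + 2 ^ b + i) : ZMod 2) := by
            rw [← hco, ← hco, hR', Polynomial.coe_mul, Polynomial.coe_add, Polynomial.coe_pow,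
              Polynomial.coe_X, Polynomial.coe_one, mul_assoc, add_mul, one_mul, map_add,
              show q + 2 ^ b + L = (q + L) + 2 ^ b by ring, coeff_X_pow_mul]
          rw [h7] at h5
          have h8 : q % 2 ^ b = ρ % 2 ^ b := by
            have h9 : q + 2 ^ b + L ≡ ρ + L [MOD 2 ^ b] := h4
            have h10 : q + 2 ^ b ≡ ρ [MOD 2 ^ b] := Nat.ModEq.add_right_cancel' L h9
            have h11 : (q + 2 ^ b) % 2 ^ b = ρ % 2 ^ b := h10
            rwa [Nat.add_mod_right] at h11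
          rcases (by decide : ∀ u v : ZMod 2, u + v = 1 → u = 0 ∨ v = 0) _ _ h5 with h9 | h9
          · exact mem_union_right _ (mem_image.2 ⟨q, mem_filter.2 ⟨mem_range.2 (by omega), h8, h9⟩, rfl⟩)
          · refine mem_union_left _ (mem_image.2 ⟨q + 2 ^ b, mem_filter.2 ⟨mem_range.2 (by omega), ?_,
              h9⟩, rfl⟩)
            rw [Nat.add_mod_right]
            exact h8
      refine (card_le_card h2).trans ((card_union_le _ _).trans ?_)
      rw [card_range]
      refine Nat.add_le_add_right ((card_union_le _ _).trans ?_) _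
      exact Nat.add_le_add card_image_le card_image_le
    have h2 : (W.card : ℝ) ≤ (V.card + V.card) + (2 ^ b + L) := by exact_mod_cast hcard
    have e1 : δ * Real.sqrt x / Real.log x = 2 * (δ / 2 * Real.sqrt x / Real.log x) := by ring
    have e2 : δ / 2 * Real.sqrt x / Real.log x = 2 * (δ / 4 * Real.sqrt x / Real.log x) := by ring
    linarith
  · obtain ⟨δ, hδ, x0, hx0⟩ := odd_count t ht (RR L c) hR b (ρ + L)
    obtain ⟨x1, hx1⟩ := absorb2 (δ / 2) L (by positivity)
    refine ⟨δ / 2, by positivity, max (max x0 x1) 2, fun x hx => ?_⟩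
    have h0 := hx0 x (((le_max_left _ _).trans (le_max_left _ _)).trans hx)
    have h1 := hx1 x (((le_max_right _ _).trans (le_max_left _ _)).trans hx)
    set W := (range (x + 1)).filter (fun n => n % 2 ^ b = (ρ + L) % 2 ^ b ∧
        coeff n ((RR L c : (ZMod 2)⟦X⟧) * PP ^ t) = 1) with hW
    set V := (range (x + 1)).filter (fun n => n % 2 ^ b = ρ % 2 ^ b ∧
        ∑ i : Fin (L + 1), c i * (mp t (n + i) : ZMod 2) = 1) with hV
    have hcard : W.card ≤ V.card + L := by
      have h2 : W ⊆ V.image (fun n => n + L) ∪ range L := by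
        intro n hn
        obtain ⟨h3, h4, h5⟩ := mem_filter.1 hn
        rw [mem_range] at h3
        by_cases h6 : n < L
        · exact mem_union_right _ (mem_range.2 h6)
        · apply mem_union_left
          obtain ⟨q, rfl⟩ : ∃ q, n = q + L := ⟨n - L, by omega⟩
          refine mem_image.2 ⟨q, mem_filter.2 ⟨mem_range.2 (by omega), ?_, ?_⟩, rfl⟩
          · exact Nat.ModEq.add_right_cancel' L h4
          · rw [← hco]
            exact h5
      refine (card_le_card h2).trans ((card_union_le _ _).trans ?_)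
      rw [card_range]
      exact Nat.add_le_add_right card_image_le _
    have h2 : (W.card : ℝ) ≤ V.card + L := by exact_mod_cast hcard
    have e1 : δ * Real.sqrt x / Real.log x = 2 * (δ / 2 * Real.sqrt x / Real.log x) := by ring
    linarith

end Pool.Agent.Q36.PC
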